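import Pool.Agent.LGD.Stmts

/-!
# Completely multiplicative functions with values in an abelian group, all integers (MP_5f6ee5_nt)

The rows CHG, TEL, GDB of squad LGD (helper21, helper3, helper77) for functions on the positive
integers with values in an arbitrary abelian group instead of `±1`.
-/

set_option autoImplicit false

namespace Pool.Agent.Helper34_GL

open Finset Pool.Agent.LGD

variable {G : Type} [CommGroup G]

/-- completely multiplicative on the positive integers -/
def PMG (f : ℕ → G) : Prop := ∀ a b : ℕ, 0 < a → 0 < b → f (a * b) = f a * f b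

open Classical in
/-- the `n` strictly between `M²` and `(M+1)²` with `f n ≠ γ` -/
noncomputable def NG (f : ℕ → G) (γ : G) (M : ℕ) : Finset ℕ :=
  (Finset.Ioo (M ^ 2) ((M + 1) ^ 2)).filter (fun n => f n ≠ γ)

/-- the sum of the numbers of divisors of the elements of `NG f γ M` -/
noncomputable def DG (f : ℕ → G) (γ : G) (M : ℕ) : ℕ := ∑ n ∈ NG f γ M, n.divisors.card

open Classical in
/-- the changes of `f` in `[a, b]` -/
noncomputable def HG (f : ℕ → G) (a b : ℕ) : Finset ℕ :=
  (Finset.Icc a b).filter (fun u => f u ≠ f (u + 1))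

theorem PMG.one {f : ℕ → G} (hf : PMG f) : f 1 = 1 := by
  have := hf 1 1 one_pos one_pos
  rw [mul_one] at this
  exact (mul_eq_left.mp this.symm)

/-- every change is a cut or gives an element of `NG f γ M` -/
theorem chg (f : ℕ → G) (γ : G) (M a b : ℕ) (hf : PMG f) (ha : 1 ≤ a) :
    (HG f a b).card ≤ (CU M a b).card + 2 * DG f γ M := by
  classical
  have hsub : HG f a b ⊆ CU M a b ∪ (NG f γ M).biUnion fun n =>
      n.divisors ∪ n.divisors.image fun d => d - 1 := by
    intro u hu
    unfold HG at hu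
    rw [mem_filter] at hu
    obtain ⟨hab, hne⟩ := hu
    rw [mem_union]
    by_cases hcut : Cut M u
    · left
      unfold CU
      rw [mem_filter]
      exact ⟨hab, hcut⟩
    · right
      unfold Cut at hcut
      push Not at hcut
      obtain ⟨v, h1, h2⟩ := hcut
      have hu1 : 0 < u := lt_of_lt_of_le ha (mem_Icc.1 hab).1
      have hv : 0 < v := by
        rcases Nat.eq_zero_or_pos v with hv | hv
        · rw [hv, Nat.mul_zero] at h1
          exact absurd h1 (Nat.not_lt_zero _)
        · exact hv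
      have h3 : f (u * v) = f u * f v := hf u v hu1 hv
      have h4 : f ((u + 1) * v) = f (u + 1) * f v := hf (u + 1) v (Nat.succ_pos u) hv
      have h5 : f (u * v) ≠ f ((u + 1) * v) := by
        rw [h3, h4]
        intro h
        exact hne (mul_right_cancel h)
      have h6 : u * v ≤ (u + 1) * v := Nat.mul_le_mul_right v (by omega)
      have h7 : f (u * v) ≠ γ ∨ f ((u + 1) * v) ≠ γ := by
        by_contra hcon
        push Not at hcon
        exact h5 (hcon.1.trans hcon.2.symm)
      rw [mem_biUnion]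
      rcases h7 with h | h
      · refine ⟨u * v, ?_, ?_⟩
        · unfold NG
          rw [mem_filter, mem_Ioo]
          exact ⟨⟨h1, lt_of_le_of_lt h6 h2⟩, h⟩
        · rw [mem_union]
          left
          rw [Nat.mem_divisors]
          exact ⟨dvd_mul_right u v, (Nat.mul_pos hu1 hv).ne'⟩
      · refine ⟨(u + 1) * v, ?_, ?_⟩
        · unfold NG
          rw [mem_filter, mem_Ioo]
          exact ⟨⟨lt_of_lt_of_le h1 h6, h2⟩, h⟩
        · rw [mem_union]
          right
          rw [mem_image]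
          refine ⟨u + 1, ?_, by omega⟩
          rw [Nat.mem_divisors]
          exact ⟨dvd_mul_right (u + 1) v, (Nat.mul_pos (Nat.succ_pos u) hv).ne'⟩
  refine (card_le_card hsub).trans ((card_union_le _ _).trans ?_)
  apply Nat.add_le_add_left
  refine card_biUnion_le.trans ?_
  unfold DG
  rw [mul_sum]
  apply sum_le_sum
  intro n _
  refine (card_union_le _ _).trans ?_
  have := card_image_le (s := n.divisors) (f := fun d => d - 1)
  omega

theorem exists_near (x : ℝ) (hx : 0 ≤ x) : ∃ a : ℕ, 0 < a ∧ |(a : ℝ) - x| ≤ 1 := by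
  refine ⟨⌊x⌋₊ + 1, Nat.succ_pos _, ?_⟩
  have h1 : (⌊x⌋₊ : ℝ) ≤ x := Nat.floor_le hx
  have h2 : x < ⌊x⌋₊ + 1 := Nat.lt_floor_add_one _
  push_cast
  rw [abs_le]
  constructor <;> linarith

/-- telescoping along the path -/
theorem tel (f : ℕ → G) (J H : ℕ) (p q g : ℕ → ℕ) (c : ℕ → ℝ) (Q Y0 : ℝ) (σ : ℕ → G)
    (hf : PMG f) (hQ : 1 ≤ Q) (hY0 : 0 < Y0) (hpq : ∀ i < J, 0 < p i ∧ 0 < q i)
    (hg : ∀ i ≤ J, 0 < g i) (hg0 : g 0 = H) (hgJ : g J = H) (hc0 : c 0 = 1)
    (hcpos : ∀ i ≤ J, 0 < c i) (hc : ∀ i < J, c (i + 1) * q i = c i * p i)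
    (hbd : ∀ i < J, (p i : ℝ) * g i ≤ Q ∧ (q i : ℝ) * g (i + 1) ≤ Q)
    (hcl : |c J * H / g J * Y0 - Y0| ≤ Q)
    (hσ : ∀ i ≤ J, ∀ n : ℕ, 0 < n → |(n : ℝ) - c i * H / g i * Y0| ≤ 4 * Q → f n = σ i) :
    ∏ i ∈ range J, (f (p i) / f (q i)) = 1 := by
  have hH : 0 < H := hg0 ▸ hg 0 (Nat.zero_le _)
  have hH0 : (0 : ℝ) < (H : ℝ) := by exact_mod_cast hH
  have hstep : ∀ i < J, f (p i) / f (q i) =
      (σ (i + 1) * f (g (i + 1))) / (σ i * f (g i)) := by
    intro i hi
    have hp := (hpq i hi).1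
    have hq := (hpq i hi).2
    have hgi := hg i hi.le
    have hgi' := hg (i + 1) hi
    have p0 : (0 : ℝ) < p i := by exact_mod_cast hp
    have q0 : (0 : ℝ) < q i := by exact_mod_cast hq
    have g0 : (0 : ℝ) < g i := by exact_mod_cast hgi
    have g0' : (0 : ℝ) < g (i + 1) := by exact_mod_cast hgi'
    have c0 := hcpos i hi.le
    have c0' := hcpos (i + 1) hi
    have hci := hc i hi
    have hb := hbd i hi
    set y : ℝ := c i * H / g i * Y0 with hy
    set y' : ℝ := c (i + 1) * H / g (i + 1) * Y0 with hy'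
    have hypos : 0 < y := by positivity
    have hypos' : 0 < y' := by positivity
    have hrel : y' * (q i * g (i + 1)) = y * (p i * g i) := by
      have e1 : y' * (q i * g (i + 1)) = (c (i + 1) * q i) * H * Y0 := by
        rw [hy']; field_simp
      have e2 : y * (p i * g i) = (c i * p i) * H * Y0 := by
        rw [hy]; field_simp
      rw [e1, e2, hci]
    obtain ⟨a, ha, hax⟩ := exists_near (y / (q i * g (i + 1))) (by positivity)
    have hx' : y' / (p i * g i) = y / (q i * g (i + 1)) := by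
      rw [div_eq_div_iff (by positivity) (by positivity), hrel]
    have k1 : f (a * (q i * g (i + 1))) = σ i := by
      refine hσ i hi.le _ (Nat.mul_pos ha (Nat.mul_pos hq hgi')) ?_
      rw [← hy]
      push_cast
      have : (a : ℝ) * (q i * g (i + 1)) - y =
          (q i * g (i + 1)) * (a - y / (q i * g (i + 1))) := by field_simp
      rw [this, abs_mul, abs_of_pos (by positivity : (0 : ℝ) < q i * g (i + 1))]
      calc (q i : ℝ) * g (i + 1) * |(a : ℝ) - y / (q i * g (i + 1))|
          ≤ Q * 1 := mul_le_mul hb.2 hax (abs_nonneg _) (by linarith)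
        _ ≤ 4 * Q := by linarith
    have k2 : f (a * (p i * g i)) = σ (i + 1) := by
      refine hσ (i + 1) hi _ (Nat.mul_pos ha (Nat.mul_pos hp hgi)) ?_
      rw [← hy']
      push_cast
      have : (a : ℝ) * (p i * g i) - y' =
          (p i * g i) * (a - y' / (p i * g i)) := by field_simp
      rw [this, abs_mul, abs_of_pos (by positivity : (0 : ℝ) < p i * g i), hx']
      calc (p i : ℝ) * g i * |(a : ℝ) - y / (q i * g (i + 1))|
          ≤ Q * 1 := mul_le_mul hb.1 hax (abs_nonneg _) (by linarith)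
        _ ≤ 4 * Q := by linarith
    rw [← k1, ← k2, hf _ _ ha (Nat.mul_pos hq hgi'), hf _ _ ha (Nat.mul_pos hp hgi),
      hf _ _ hq hgi', hf _ _ hp hgi, div_eq_div_iff_mul_eq_mul]
    ac_rfl
  have hprod : ∏ i ∈ range J, (f (p i) / f (q i)) =
      ∏ i ∈ range J, ((σ (i + 1) * f (g (i + 1))) / (σ i * f (g i))) :=
    prod_congr rfl fun i hi => hstep i (mem_range.1 hi)
  rw [hprod, Finset.prod_range_div (fun i => σ i * f (g i)) J]
  have hσJ : σ J = σ 0 := by
    obtain ⟨n, hn, hnx⟩ := exists_near Y0 hY0.le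
    have e0 : c 0 * H / g 0 * Y0 = Y0 := by
      rw [hc0, hg0]; field_simp
    have a1 : f n = σ 0 := by
      refine hσ 0 (Nat.zero_le _) n hn ?_
      rw [e0]
      linarith
    have a2 : f n = σ J := by
      refine hσ J le_rfl n hn ?_
      have : (n : ℝ) - c J * H / g J * Y0 = ((n : ℝ) - Y0) - (c J * H / g J * Y0 - Y0) := by ring
      rw [this]
      calc |((n : ℝ) - Y0) - (c J * H / g J * Y0 - Y0)|
          ≤ |(n : ℝ) - Y0| + |c J * H / g J * Y0 - Y0| := abs_sub _ _
        _ ≤ 4 * Q := by linarith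
    rw [← a1, ← a2]
  rw [hσJ, hg0, hgJ, div_self']

/-- no change near `Y` -/
theorem gdb (f : ℕ → G) (a b : ℕ) (Q Y : ℝ) (ha : (a : ℝ) ≤ Y - 4 * Q) (hb : Y + 4 * Q ≤ b)
    (hch : ∀ u ∈ HG f a b, 4 * Q < |(u : ℝ) - Y|) :
    ∃ σ : G, ∀ n : ℕ, |(n : ℝ) - Y| ≤ 4 * Q → f n = σ := by
  classical
  have key : ∀ (j n : ℕ), |(n : ℝ) - Y| ≤ 4 * Q →
      |((n + j : ℕ) : ℝ) - Y| ≤ 4 * Q → f (n + j) = f n := by
    intro j
    induction j with
    | zero => intro n _ _; rfl
    | succ j ih =>
      intro n h1 h2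
      have hj : (0 : ℝ) ≤ (j : ℝ) := Nat.cast_nonneg j
      have h3 : |((n + j : ℕ) : ℝ) - Y| ≤ 4 * Q := by
        rw [abs_le] at h1 h2 ⊢
        push_cast at h2 ⊢
        constructor
        · linarith [h1.1]
        · linarith [h2.2]
      rw [← ih n h1 h3]
      by_contra hne
      have hmem : n + j ∈ HG f a b := by
        unfold HG
        rw [Finset.mem_filter, Finset.mem_Icc]
        have h4 := abs_le.mp h3
        refine ⟨⟨?_, ?_⟩, ?_⟩
        · have h5 : (a : ℝ) ≤ ((n + j : ℕ) : ℝ) := by linarith [h4.1]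
          exact_mod_cast h5
        · have h5 : ((n + j : ℕ) : ℝ) ≤ (b : ℝ) := by linarith [h4.2]
          exact_mod_cast h5
        · intro he
          apply hne
          rw [he]
          rfl
      have h6 := hch _ hmem
      linarith
  by_cases hex : ∃ n0 : ℕ, |(n0 : ℝ) - Y| ≤ 4 * Q
  · obtain ⟨n0, h0⟩ := hex
    refine ⟨f n0, ?_⟩
    intro n h
    rcases le_total n n0 with hle | hle
    · obtain ⟨j, rfl⟩ := Nat.exists_eq_add_of_le hle
      exact (key j n h h0).symm
    · obtain ⟨j, rfl⟩ := Nat.exists_eq_add_of_le hle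
      exact key j n0 h0 h
  · exact ⟨1, fun n h => absurd ⟨n, h⟩ hex⟩

end Pool.Agent.Helper34_GL
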