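import Pool.Agent.Helper34_GL.Ma
import Pool.Agent.Helper34_GG.Final
import Pool.Agent.Helper70_LGD.CT1
import Pool.Agent.Helper75_LGD.CT2
import Pool.Agent.Helper13_LGD.CT3

/-!
# Assembly, both versions
-/

set_option autoImplicit false

namespace Pool.Agent.Helper34_GL

open Finset Pool.Agent.OPH

/-! ### Duality -/

/-- products of powers of the elements of `S`, with sum of exponents `0` -/
def HS (S : Finset ℕ) (hS : ∀ n ∈ S, 0 < n) : Subgroup ℚˣ where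
  carrier := {x | ∃ e : ℕ → ℤ, ∑ n ∈ S, e n = 0 ∧ ∏ n ∈ S, ((n : ℕ) : ℚ) ^ (e n) = (x : ℚ)}
  mul_mem' := by
    rintro x y ⟨e, h2, h3⟩ ⟨e', h2', h3'⟩
    refine ⟨fun n => e n + e' n, ?_, ?_⟩
    · rw [Finset.sum_add_distrib, h2, h2', add_zero]
    · rw [Units.val_mul, ← h3, ← h3', ← Finset.prod_mul_distrib]
      refine Finset.prod_congr rfl fun n hn => ?_
      exact zpow_add₀ (by
        have := hS n hn
        exact_mod_cast this.ne') _ _
  one_mem' := ⟨fun _ => 0, by simp, by simp⟩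
  inv_mem' := by
    rintro x ⟨e, h2, h3⟩
    refine ⟨fun n => - e n, ?_, ?_⟩
    · rw [Finset.sum_neg_distrib, h2, neg_zero]
    · rw [Units.val_inv_eq_inv_val, ← h3, ← Finset.prod_inv_distrib]
      refine Finset.prod_congr rfl fun n _ => ?_
      exact zpow_neg _ _

/-- quotients of two elements of `S` -/
theorem quot_mem (S : Finset ℕ) (hS : ∀ n ∈ S, 0 < n) (n m : ℕ) (hn : n ∈ S) (hm : m ∈ S)
    (x : ℚˣ) (hx : (x : ℚ) = n / m) : x ∈ HS S hS := by
  classical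
  refine ⟨fun j => (if j = n then 1 else 0) - (if j = m then 1 else 0), ?_, ?_⟩
  · rw [Finset.sum_sub_distrib, Finset.sum_ite_eq', Finset.sum_ite_eq', if_pos hn, if_pos hm,
      sub_self]
  · have h0 : ∀ j ∈ S,
        ((j : ℕ) : ℚ) ^ ((if j = n then (1 : ℤ) else 0) - (if j = m then 1 else 0)) =
        (if j = n then ((j : ℕ) : ℚ) else 1) / (if j = m then ((j : ℕ) : ℚ) else 1) := by
      intro j hj
      have hj0 : (j : ℚ) ≠ 0 := by
        have := hS j hj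
        exact_mod_cast this.ne'
      rw [zpow_sub₀ hj0]
      split_ifs <;> simp
    rw [Finset.prod_congr rfl h0, Finset.prod_div_distrib, Finset.prod_ite_eq',
      Finset.prod_ite_eq', if_pos hn, if_pos hm, hx]

/-- the function to the quotient -/
noncomputable def fS (S : Finset ℕ) (hS : ∀ n ∈ S, 0 < n) (n : ℕ) : ℚˣ ⧸ HS S hS := by
  classical
  exact if h : (n : ℚ) = 0 then 1 else QuotientGroup.mk (Units.mk0 (n : ℚ) h)

theorem fS_eq (S : Finset ℕ) (hS : ∀ n ∈ S, 0 < n) (n : ℕ) (h : (n : ℚ) ≠ 0) :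
    fS S hS n = QuotientGroup.mk (Units.mk0 (n : ℚ) h) := by
  unfold fS
  rw [dif_neg h]

theorem fS_pmg (S : Finset ℕ) (hS : ∀ n ∈ S, 0 < n) : PMG (fS S hS) := by
  intro a b ha hb
  have ha0 : (a : ℚ) ≠ 0 := by exact_mod_cast ha.ne'
  have hb0 : (b : ℚ) ≠ 0 := by exact_mod_cast hb.ne'
  have hab : ((a * b : ℕ) : ℚ) ≠ 0 := by
    push_cast
    exact mul_ne_zero ha0 hb0
  rw [fS_eq S hS a ha0, fS_eq S hS b hb0, fS_eq S hS (a * b) hab, ← QuotientGroup.mk_mul]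
  have e : Units.mk0 ((a * b : ℕ) : ℚ) hab = Units.mk0 (a : ℚ) ha0 * Units.mk0 (b : ℚ) hb0 := by
    apply Units.ext
    simp
  rw [e]

/-- duality -/
theorem dual (S : Finset ℕ) (hS : ∀ n ∈ S, 0 < n) (n0 n1 : ℕ) (hn0 : n0 ∈ S) (hn1 : 0 < n1)
    (key : ∀ (G : Type) [CommGroup G] (f : ℕ → G), PMG f → (∀ n ∈ S, f n = f n0) → f n1 = 1) :
    ∃ e : ℕ → ℤ, ∑ n ∈ S, e n = 0 ∧ ∏ n ∈ S, ((n : ℕ) : ℚ) ^ (e n) = (n1 : ℚ) := by
  have hn10 : (n1 : ℚ) ≠ 0 := by exact_mod_cast hn1.ne'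
  have hf1 : fS S hS n1 = 1 := by
    apply key (ℚˣ ⧸ HS S hS) (fS S hS) (fS_pmg S hS)
    intro n hn
    have q1 : (n : ℚ) ≠ 0 := by
      have := hS n hn
      exact_mod_cast this.ne'
    have q0 : (n0 : ℚ) ≠ 0 := by
      have := hS n0 hn0
      exact_mod_cast this.ne'
    rw [fS_eq S hS n q1, fS_eq S hS n0 q0, QuotientGroup.eq]
    apply quot_mem S hS n0 n hn0 hn
    simp [div_eq_inv_mul]
  rw [fS_eq S hS n1 hn10, QuotientGroup.eq_one_iff] at hf1
  obtain ⟨e, h2, h3⟩ := hf1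
  exact ⟨e, h2, by rw [h3]; rfl⟩

/-! ### All integers between consecutive squares -/

theorem ct3Stmt : Pool.Agent.LGD.Ct3Stmt :=
  Pool.Agent.LGD.H13.ct3 Pool.Agent.LGD.H70.ct1 Pool.Agent.LGD.H75.ct2
    Pool.Agent.Helper91_OPG.GAP.result

theorem main2 : ∃ C : ℕ, 1 ≤ C ∧ ∀ (M n1 : ℕ), C ≤ M → 0 < n1 →
    (n1 * Nat.log 2 M) ^ C ≤ M →
    ∀ (G : Type) [CommGroup G] (f : ℕ → G) (γ : G), PMG f → f n1 ≠ 1 →
    M ≤ (n1 * Nat.log 2 M) ^ C * (NG f γ M).card :=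
  fig Pool.Agent.Helper34_GG.gr2Stmt Pool.Agent.OPH.H28.ord Pool.Agent.OPG.H17.bad ct3Stmt
    Pool.Agent.Helper34_GG.dv2Stmt

theorem mainR : ∃ C : ℕ, 1 ≤ C ∧ ∀ (k n1 : ℕ), C ≤ k → 0 < n1 →
    ((n1 : ℝ) * Real.log k) ^ C ≤ k →
    ∀ (G : Type) [CommGroup G] (f : ℕ → G) (γ : G), PMG f → f n1 ≠ 1 →
    (k : ℝ) ≤ ((n1 : ℝ) * Real.log k) ^ C * (NG f γ k).card := by
  obtain ⟨C, hC1, hC⟩ := main2
  obtain ⟨K, hK3, hK⟩ := Pool.Agent.Helper34_GG.log_cmp
  refine ⟨2 * C + K, by omega, ?_⟩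
  intro k n1 hk hn1 hbig G _ f γ hf hf1
  obtain ⟨hl, hl1⟩ := hK k (by omega)
  have hn1R : (1 : ℝ) ≤ n1 := by exact_mod_cast hn1
  have hn0 : (0 : ℝ) ≤ (Nat.log 2 k : ℕ) := Nat.cast_nonneg _
  have hl' : ((Nat.log 2 k : ℕ) : ℝ) ≤ Real.log k ^ 2 := by
    refine le_trans ?_ hl
    have : Nat.log 2 k ≤ Nat.log 2 (2 * k) := Nat.log_mono_right (by omega)
    exact_mod_cast this
  have hnl1 : (1 : ℝ) ≤ n1 * Real.log k := by nlinarith
  have h1 : ((n1 : ℝ) * (Nat.log 2 k : ℕ)) ^ C ≤ ((n1 : ℝ) * Real.log k) ^ (2 * C + K) := by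
    calc ((n1 : ℝ) * (Nat.log 2 k : ℕ)) ^ C ≤ (((n1 : ℝ) * Real.log k) ^ 2) ^ C := by
          apply pow_le_pow_left₀ (by positivity)
          rw [mul_pow]
          apply mul_le_mul _ hl' hn0 (by positivity)
          nlinarith
      _ = ((n1 : ℝ) * Real.log k) ^ (2 * C) := by rw [← pow_mul]
      _ ≤ _ := pow_le_pow_right₀ hnl1 (by omega)
  have h2 : (n1 * Nat.log 2 k) ^ C ≤ k := by
    have h3 : (((n1 * Nat.log 2 k) ^ C : ℕ) : ℝ) ≤ ((k : ℕ) : ℝ) := by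
      push_cast
      linarith
    exact_mod_cast h3
  have h3 := hC k n1 (by omega) hn1 h2 G f γ hf hf1
  have h4 : (k : ℝ) ≤ (((n1 * Nat.log 2 k) ^ C * (NG f γ k).card : ℕ) : ℝ) := by
    exact_mod_cast h3
  push_cast at h4
  have h5 : ((n1 : ℝ) * (Nat.log 2 k : ℕ)) ^ C * (NG f γ k).card ≤
      ((n1 : ℝ) * Real.log k) ^ (2 * C + K) * (NG f γ k).card :=
    mul_le_mul_of_nonneg_right h1 (Nat.cast_nonneg _)
  linarith

theorem mem_NG {G : Type} [CommGroup G] {f : ℕ → G} {γ : G} {M n : ℕ} :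
    n ∈ NG f γ M ↔ n ∈ Finset.Ioo (M ^ 2) ((M + 1) ^ 2) ∧ f n ≠ γ := by
  classical
  unfold NG
  exact Finset.mem_filter

/-- a set of elements of size `≥ k` is not contained in a set of size `< k` -/
theorem exists_out (S B : Finset ℕ) (k : ℕ) (g : ℕ → ℕ) (hg : Function.Injective g)
    (h : ∀ i < k, g i ∈ S) (hB : B.card < k) : ∃ n ∈ S, n ∉ B := by
  by_contra hcon
  push Not at hcon
  have hsub : (Finset.range k).image g ⊆ B := by
    intro n hn
    rw [Finset.mem_image] at hn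
    obtain ⟨i, hi, rfl⟩ := hn
    exact hcon _ (h i (Finset.mem_range.mp hi))
  have hcard := Finset.card_le_card hsub
  rw [Finset.card_image_of_injective _ hg, Finset.card_range] at hcard
  omega

/-- the theorem for all integers between consecutive squares -/
theorem genAll : ∃ C : ℕ, 1 ≤ C ∧ ∀ (m n1 : ℕ), C ≤ m → 0 < n1 →
    ((n1 : ℝ) * Real.log m) ^ C ≤ m →
    (∀ (G : Type) [CommGroup G] (f : ℕ → G) (γ : G), PMG f → f n1 ≠ 1 →
      (m : ℝ) ≤ ((n1 : ℝ) * Real.log m) ^ C * (NG f γ m).card) ∧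
    ∀ B : Finset ℕ, ((n1 : ℝ) * Real.log m) ^ C * B.card < m →
      ∃ e : ℕ → ℤ, ∑ n ∈ (Finset.Ioo (m ^ 2) ((m + 1) ^ 2)).filter (fun n => n ∉ B), e n = 0 ∧
        ∏ n ∈ (Finset.Ioo (m ^ 2) ((m + 1) ^ 2)).filter (fun n => n ∉ B),
          ((n : ℕ) : ℚ) ^ (e n) = (n1 : ℚ) := by
  obtain ⟨C, hC1, hC⟩ := mainR
  refine ⟨C + 16, by omega, ?_⟩
  intro m n1 hm hn1 hbig
  have hn1R : (1 : ℝ) ≤ n1 := by exact_mod_cast hn1
  have hl1 : 1 ≤ Real.log m := by
    have hmR : (16 : ℝ) ≤ m := by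
      have : 16 ≤ m := by omega
      exact_mod_cast this
    have h1 : Real.exp 1 ≤ m := by
      have := Real.exp_one_lt_d9
      linarith
    have h2 := Real.log_le_log (Real.exp_pos 1) h1
    rwa [Real.log_exp] at h2
  have hnl1 : (1 : ℝ) ≤ n1 * Real.log m := by nlinarith
  have hCC : ((n1 : ℝ) * Real.log m) ^ C ≤ ((n1 : ℝ) * Real.log m) ^ (C + 16) :=
    pow_le_pow_right₀ hnl1 (by omega)
  have key := hC m n1 (by omega) hn1 (hCC.trans hbig)
  constructor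
  · intro G _ f γ hf hf1
    exact (key G f γ hf hf1).trans (mul_le_mul_of_nonneg_right hCC (Nat.cast_nonneg _))
  · intro B hB
    have hone : (1 : ℝ) ≤ ((n1 : ℝ) * Real.log m) ^ (C + 16) := one_le_pow₀ hnl1
    have hB0 : (0 : ℝ) ≤ B.card := Nat.cast_nonneg _
    have hBm : B.card < m := by
      have h1 : (B.card : ℝ) < m := by nlinarith
      exact_mod_cast h1
    obtain ⟨n0, hn0, hn0B⟩ := exists_out (Finset.Ioo (m ^ 2) ((m + 1) ^ 2)) B m
      (fun i => m ^ 2 + (i + 1)) (fun i j hij => by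
        have h1 : m ^ 2 + (i + 1) = m ^ 2 + (j + 1) := hij
        omega) (fun i hi => by
        rw [Finset.mem_Ioo]
        constructor
        · omega
        · nlinarith) hBm
    apply dual _ (fun n hn => by
      rw [Finset.mem_filter, Finset.mem_Ioo] at hn
      omega) n0 n1 (Finset.mem_filter.mpr ⟨hn0, hn0B⟩) hn1
    intro G _ f hf hfS
    by_contra hne
    have h1 := key G f (f n0) hf hne
    have hsub : NG f (f n0) m ⊆ B := by
      intro n hn
      obtain ⟨hn1', hn3⟩ := mem_NG.mp hn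
      by_contra hnB
      exact hn3 (hfS n (Finset.mem_filter.mpr ⟨hn1', hnB⟩))
    have h2 : ((NG f (f n0) m).card : ℝ) ≤ B.card := by
      exact_mod_cast Finset.card_le_card hsub
    have h3 : ((n1 : ℝ) * Real.log m) ^ C * (NG f (f n0) m).card ≤
        ((n1 : ℝ) * Real.log m) ^ (C + 16) * B.card := by
      apply mul_le_mul hCC h2 (Nat.cast_nonneg _) (by positivity)
    linarith

/-! ### Odd integers between consecutive odd squares -/

/-- the theorem for the odd integers between consecutive odd squares -/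
theorem genOdd : ∃ C : ℕ, 1 ≤ C ∧ ∀ (k n1 : ℕ), C ≤ k → Odd n1 →
    ((n1 : ℝ) * Real.log k) ^ C ≤ k →
    (∀ (G : Type) [CommGroup G] (f : ℕ → G) (γ : G), Pool.Agent.Helper34_GG.OMG f → f n1 ≠ 1 →
      (k : ℝ) ≤ ((n1 : ℝ) * Real.log k) ^ C * (Pool.Agent.Helper34_GG.NG f γ (2 * k)).card) ∧
    ∀ B : Finset ℕ, ((n1 : ℝ) * Real.log k) ^ C * B.card < k →
      ∃ e : ℕ → ℤ, ∑ n ∈ (Finset.Ioo ((2 * k - 1) ^ 2) ((2 * k + 1) ^ 2)).filter
          (fun n => Odd n ∧ n ∉ B), e n = 0 ∧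
        ∏ n ∈ (Finset.Ioo ((2 * k - 1) ^ 2) ((2 * k + 1) ^ 2)).filter
          (fun n => Odd n ∧ n ∉ B), ((n : ℕ) : ℚ) ^ (e n) = (n1 : ℚ) := by
  obtain ⟨C, hC1, hC⟩ := Pool.Agent.Helper34_GG.mainR
  refine ⟨C + 16, by omega, ?_⟩
  intro k n1 hk hn1 hbig
  have hn1R : (1 : ℝ) ≤ n1 := by exact_mod_cast hn1.pos
  have hl1 : 1 ≤ Real.log k := by
    have hmR : (16 : ℝ) ≤ k := by
      have : 16 ≤ k := by omega
      exact_mod_cast this
    have h1 : Real.exp 1 ≤ k := by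
      have := Real.exp_one_lt_d9
      linarith
    have h2 := Real.log_le_log (Real.exp_pos 1) h1
    rwa [Real.log_exp] at h2
  have hnl1 : (1 : ℝ) ≤ n1 * Real.log k := by nlinarith
  have hCC : ((n1 : ℝ) * Real.log k) ^ C ≤ ((n1 : ℝ) * Real.log k) ^ (C + 16) :=
    pow_le_pow_right₀ hnl1 (by omega)
  have key := hC k n1 (by omega) hn1 (hCC.trans hbig)
  constructor
  · intro G _ f γ hf hf1
    exact (key G f γ hf hf1).trans (mul_le_mul_of_nonneg_right hCC (Nat.cast_nonneg _))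
  · intro B hB
    have hone : (1 : ℝ) ≤ ((n1 : ℝ) * Real.log k) ^ (C + 16) := one_le_pow₀ hnl1
    have hB0 : (0 : ℝ) ≤ B.card := Nat.cast_nonneg _
    have hBk : B.card < k := by
      have h1 : (B.card : ℝ) < k := by nlinarith
      exact_mod_cast h1
    have hk16 : 16 ≤ k := by omega
    obtain ⟨n0, hn0, hn0B⟩ := exists_out
      ((Finset.Ioo ((2 * k - 1) ^ 2) ((2 * k + 1) ^ 2)).filter (fun n => Odd n)) B k
      (fun i => (2 * k - 1) ^ 2 + 2 * (i + 1)) (fun i j hij => by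
        have h1 : (2 * k - 1) ^ 2 + 2 * (i + 1) = (2 * k - 1) ^ 2 + 2 * (j + 1) := hij
        omega) (fun i hi => by
        rw [Finset.mem_filter, Finset.mem_Ioo]
        refine ⟨⟨by omega, ?_⟩, ?_⟩
        · obtain ⟨w, hw⟩ : ∃ w, 2 * k = w + 1 := ⟨2 * k - 1, by omega⟩
          rw [hw]
          have e1 : w + 1 - 1 = w := by omega
          rw [e1]
          nlinarith
        · have h1 : Odd (2 * k - 1) := ⟨k - 1, by omega⟩
          exact h1.pow.add_even (even_two_mul _)) hBk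
    have hn0' := Finset.mem_filter.mp hn0
    apply dual _ (fun n hn => by
      rw [Finset.mem_filter, Finset.mem_Ioo] at hn
      omega) n0 n1 (Finset.mem_filter.mpr ⟨hn0'.1, hn0'.2, hn0B⟩) hn1.pos
    intro G _ f hf hfS
    by_contra hne
    have h1 := key G f (f n0) (fun a b ha hb => hf a b ha.pos hb.pos) hne
    have hsub : Pool.Agent.Helper34_GG.NG f (f n0) (2 * k) ⊆ B := by
      intro n hn
      obtain ⟨hn1', hn2, hn3⟩ := Pool.Agent.Helper34_GG.mem_NG.mp hn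
      by_contra hnB
      exact hn3 (hfS n (Finset.mem_filter.mpr ⟨hn1', hn2, hnB⟩))
    have h2 : ((Pool.Agent.Helper34_GG.NG f (f n0) (2 * k)).card : ℝ) ≤ B.card := by
      exact_mod_cast Finset.card_le_card hsub
    have h3 : ((n1 : ℝ) * Real.log k) ^ C * (Pool.Agent.Helper34_GG.NG f (f n0) (2 * k)).card ≤
        ((n1 : ℝ) * Real.log k) ^ (C + 16) * B.card := by
      apply mul_le_mul hCC h2 (Nat.cast_nonneg _) (by positivity)
    linarith

end Pool.Agent.Helper34_GL
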