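import Pool.Agent.Helper34_GL.Pa
import Pool.Agent.Helper34_GG.Ma

/-!
# The main inequality, all integers

After `Pool/Agent/Helper34_GG/Ma.lean`.
-/

set_option autoImplicit false

namespace Pool.Agent.Helper34_GL

open Finset Pool.Agent.OPH Pool.Agent.LGD

/-- the main inequality -/
theorem mag (hG : Gr2Stmt) (hO : OrdStmt) (hbad : Pool.Agent.OPG.BadStmt) (hCt3 : Ct3Stmt) :
    ∃ C : ℕ, 1 ≤ C ∧ ∀ (M n1 : ℕ), C ≤ M → 0 < n1 → (n1 * Nat.log 2 M) ^ C ≤ M →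
    ∀ (G : Type) [CommGroup G] (f : ℕ → G) (γ : G), PMG f → f n1 ≠ 1 →
    M ≤ 16320 * (n1 * Nat.log 2 M) ^ C * DG f γ M := by
  obtain ⟨C1, hC1, hC⟩ := pag hG hO hbad
  obtain ⟨L0, hL0⟩ : ∃ L0 : ℕ, L0 = 10 ^ 8 := ⟨_, rfl⟩
  obtain ⟨N, hN⟩ : ∃ N : ℕ, N = 2 ^ L0 := ⟨_, rfl⟩
  obtain ⟨E, hE⟩ : ∃ E : ℕ, E = 50 * (C1 + 1) + N := ⟨_, rfl⟩
  refine ⟨E, by omega, ?_⟩
  intro M n1 hM hn1 hbig G _ f γ hf hf1
  obtain ⟨k, hk⟩ : ∃ k, k = Nat.log 2 M := ⟨_, rfl⟩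
  rw [← hk] at hbig
  have hn1pos : 1 ≤ n1 := hn1
  have hNM : 2 ^ L0 ≤ M := by omega
  have hL : L0 ≤ k := by
    rw [hk]
    exact Nat.le_log_of_pow_le (by norm_num) hNM
  have hk8 : 10 ^ 8 ≤ k := by rw [← hL0]; exact hL
  have hk1 : 1 ≤ k := le_trans (by norm_num) hk8
  have hnk : 1 ≤ n1 * k := Nat.one_le_iff_ne_zero.mpr (by positivity)
  obtain ⟨P, hP⟩ : ∃ P : ℕ, P = 2 * (n1 * k ^ C1) + 1 := ⟨_, rfl⟩
  have hkC1 : k ≤ k ^ C1 := Nat.le_self_pow (by omega) k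
  have hnkC : k ≤ n1 * k ^ C1 := hkC1.trans (Nat.le_mul_of_pos_left _ hn1pos)
  have hP8 : 10 ^ 8 ≤ P := by omega
  have hPE : P ≤ (n1 * k) ^ (C1 + 1) := by
    have h1 : P ≤ 3 * (n1 * k ^ C1) := by omega
    have h3 : 3 ≤ k := le_trans (by norm_num) hk8
    calc P ≤ 3 * (n1 * k ^ C1) := h1
      _ ≤ k * (n1 * k ^ C1) := Nat.mul_le_mul_right _ h3
      _ = n1 * k ^ (C1 + 1) := by ring
      _ ≤ n1 ^ (C1 + 1) * k ^ (C1 + 1) :=
          Nat.mul_le_mul_right _ (Nat.le_self_pow (by omega) n1)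
      _ = (n1 * k) ^ (C1 + 1) := by rw [mul_pow]
  have hP50 : P ^ 50 ≤ M := by
    calc P ^ 50 ≤ ((n1 * k) ^ (C1 + 1)) ^ 50 := Nat.pow_le_pow_left hPE 50
      _ = (n1 * k) ^ (50 * (C1 + 1)) := by
          rw [← pow_mul, mul_comm (C1 + 1) 50]
      _ ≤ (n1 * k) ^ E := Nat.pow_le_pow_right hnk (by omega)
      _ ≤ M := hbig
  have hP1 : 1 ≤ P := by omega
  have hPpos : 0 < P ^ 10 := Nat.pos_of_ne_zero (by positivity)
  obtain ⟨A, hA⟩ : ∃ A : ℕ, A = M / P ^ 10 := ⟨_, rfl⟩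
  have hA1 : A * P ^ 10 ≤ M := hA ▸ Nat.div_mul_le_self M _
  have hA2 : M < (A + 1) * P ^ 10 := by
    rw [hA]
    exact Nat.lt_mul_of_div_lt (Nat.lt_succ_self _) hPpos
  have hA40 : P ^ 40 ≤ A := by
    rw [hA, Nat.le_div_iff_mul_le hPpos, ← pow_add]
    exact hP50
  have hPA : P ≤ A := (Nat.le_self_pow (by norm_num) P).trans hA40
  have hA100 : 100 ≤ A := le_trans (le_trans (by norm_num) hP8) hPA
  have hs10 : 10 ≤ P ^ 5 :=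
    le_trans (le_trans (by norm_num) hP8) (Nat.le_self_pow (by norm_num) P)
  have hP40M : P ^ 40 ≤ M := (Nat.pow_le_pow_right hP1 (by norm_num)).trans hP50
  have i1 := hC P M A n1 (by omega) hn1 (by rw [hP, hk]) hP40M hA1 hA2 G f hf hf1
  have i2 := chg f γ M (M + A) (M + 2 * A) hf (by omega)
  have e10 : P ^ 10 = (P ^ 5) ^ 2 := by rw [← pow_mul]
  have i3 := hCt3 M A (P ^ 5) hA100 hs10 (by rw [← e10]; exact hA1) (by rw [← e10]; exact hA2)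
  have j1 : (A : ℝ) ≤ 2040 * (P : ℝ) ^ 14 * ((HG f (M + A) (M + 2 * A)).card : ℝ) := by
    exact_mod_cast i1
  have j2 : ((HG f (M + A) (M + 2 * A)).card : ℝ) ≤
      ((CU M (M + A) (M + 2 * A)).card : ℝ) + 2 * ((DG f γ M : ℕ) : ℝ) := by
    exact_mod_cast i2
  have j3 : ((CU M (M + A) (M + 2 * A)).card : ℝ) ≤
      1 + ((P : ℝ) ^ 5) ^ 4 + 280 * A / ((P : ℝ) ^ 5) ^ 3 := by
    have := i3
    push_cast at this
    exact this
  have j4 : ((10 : ℝ) ^ 8) ≤ P := by exact_mod_cast hP8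
  have j5 : (P : ℝ) ^ 40 ≤ A := by exact_mod_cast hA40
  have j6 := Pool.Agent.Helper34_GG.ineq A P (DG f γ M : ℕ) _ _ j4 j5 j1 j2 j3
  have k6 : A ≤ 8160 * P ^ 14 * DG f γ M := by exact_mod_cast j6
  have k7 : M ≤ 16320 * P ^ 24 * DG f γ M := by
    calc M ≤ (A + 1) * P ^ 10 := hA2.le
      _ ≤ (2 * A) * P ^ 10 := Nat.mul_le_mul_right _ (by omega)
      _ ≤ (2 * (8160 * P ^ 14 * DG f γ M)) * P ^ 10 :=
          Nat.mul_le_mul_right _ (Nat.mul_le_mul_left _ k6)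
      _ = 16320 * P ^ 24 * DG f γ M := by ring
  rw [← hk]
  calc M ≤ 16320 * P ^ 24 * DG f γ M := k7
    _ ≤ 16320 * ((n1 * k) ^ (C1 + 1)) ^ 24 * DG f γ M :=
        Nat.mul_le_mul_right _ (Nat.mul_le_mul_left _ (Nat.pow_le_pow_left hPE 24))
    _ = 16320 * (n1 * k) ^ (24 * (C1 + 1)) * DG f γ M := by
        rw [← pow_mul, mul_comm (C1 + 1) 24]
    _ ≤ 16320 * (n1 * k) ^ E * DG f γ M :=
        Nat.mul_le_mul_right _ (Nat.mul_le_mul_left _ (Nat.pow_le_pow_right hnk (by omega)))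

/-- Cauchy-Schwarz -/
theorem fig (hG : Gr2Stmt) (hO : OrdStmt) (hbad : Pool.Agent.OPG.BadStmt) (hCt3 : Ct3Stmt) (hD : Dv2Stmt) :
    ∃ C : ℕ, 1 ≤ C ∧ ∀ (M n1 : ℕ), C ≤ M → 0 < n1 → (n1 * Nat.log 2 M) ^ C ≤ M →
    ∀ (G : Type) [CommGroup G] (f : ℕ → G) (γ : G), PMG f → f n1 ≠ 1 →
    M ≤ (n1 * Nat.log 2 M) ^ C * (NG f γ M).card := by
  obtain ⟨C, hC1, hC⟩ := mag hG hO hbad hCt3
  obtain ⟨D, hD1, hDV⟩ := hD
  obtain ⟨K, hK⟩ : ∃ K : ℕ, K = 16320 ^ 2 * (D * 2 * 2 ^ D) := ⟨_, rfl⟩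
  obtain ⟨N, hN⟩ : ∃ N : ℕ, N = 2 ^ K := ⟨_, rfl⟩
  obtain ⟨E, hE⟩ : ∃ E : ℕ, E = 2 * C + D + 1 + N + 4 := ⟨_, rfl⟩
  refine ⟨E, by omega, ?_⟩
  intro M n1 hM hn1 hbig G _ f γ hf hf1
  have hn1pos : 1 ≤ n1 := hn1
  have hM4 : 4 ≤ M := by omega
  obtain ⟨k, hk⟩ : ∃ k, k = Nat.log 2 M := ⟨_, rfl⟩
  have hKk : K ≤ k := by
    rw [hk]
    apply Nat.le_log_of_pow_le (by norm_num)
    rw [← hN]
    omega
  have hk1 : 1 ≤ k := by
    rw [hk]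
    exact Nat.log_pos (by norm_num) (by omega)
  rw [← hk] at hbig ⊢
  have hnk : 1 ≤ n1 * k := Nat.one_le_iff_ne_zero.mpr (by positivity)
  have hkn : k ≤ n1 * k := Nat.le_mul_of_pos_left _ hn1pos
  have h1 := hC M n1 (by omega) hn1 (by
    rw [← hk]
    exact (Nat.pow_le_pow_right hnk (by omega)).trans hbig) G f γ hf hf1
  have h2 := hDV (M + 1) (by omega)
  have hlog : Nat.log 2 (M + 1) ≤ 2 * k := by
    have e1 : Nat.log 2 (M + 1) ≤ Nat.log 2 (M * 2) := Nat.log_mono_right (by omega)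
    have e2 : Nat.log 2 (M * 2) = Nat.log 2 M + 1 := Nat.log_mul_base (by norm_num) (by omega)
    omega
  rw [← hk] at h1
  have h3 : DG f γ M ^ 2 ≤ (NG f γ M).card * ∑ n ∈ NG f γ M, n.divisors.card ^ 2 := by
    unfold DG
    exact sq_sum_le_card_mul_sum_sq
  have h4 : ∑ n ∈ NG f γ M, n.divisors.card ^ 2 ≤
      ∑ n ∈ Finset.Ioo ((M + 1 - 1) ^ 2) ((M + 1 + 1) ^ 2), n.divisors.card ^ 2 := by
    apply Finset.sum_le_sum_of_subset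
    classical
    unfold NG
    refine (Finset.filter_subset _ _).trans ?_
    intro x hx
    rw [Finset.mem_Ioo] at hx ⊢
    refine ⟨by simpa using hx.1, hx.2.trans_le (Nat.pow_le_pow_left (by omega) 2)⟩
  have h45 : D * (M + 1) * Nat.log 2 (M + 1) ^ D ≤ (D * 2 * 2 ^ D) * M * k ^ D := by
    calc D * (M + 1) * Nat.log 2 (M + 1) ^ D ≤ D * (2 * M) * (2 * k) ^ D :=
          Nat.mul_le_mul (Nat.mul_le_mul_left _ (by omega)) (Nat.pow_le_pow_left hlog _)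
      _ = (D * 2 * 2 ^ D) * M * k ^ D := by rw [mul_pow]; ring
  have h5 : DG f γ M ^ 2 ≤ (NG f γ M).card * ((D * 2 * 2 ^ D) * M * k ^ D) :=
    h3.trans (Nat.mul_le_mul_left _ (h4.trans (h2.trans h45)))
  have h6 : M ^ 2 ≤ (16320 * (n1 * k) ^ C) ^ 2 *
      ((NG f γ M).card * ((D * 2 * 2 ^ D) * M * k ^ D)) := by
    calc M ^ 2 ≤ (16320 * (n1 * k) ^ C * DG f γ M) ^ 2 := Nat.pow_le_pow_left h1 2
      _ = (16320 * (n1 * k) ^ C) ^ 2 * DG f γ M ^ 2 := by ring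
      _ ≤ _ := Nat.mul_le_mul_left _ h5
  have h7 : M * M ≤ (K * (n1 * k) ^ (2 * C) * k ^ D * (NG f γ M).card) * M := by
    calc M * M = M ^ 2 := by ring
      _ ≤ _ := h6
      _ = _ := by rw [hK, pow_mul]; ring
  have h8 : M ≤ K * (n1 * k) ^ (2 * C) * k ^ D * (NG f γ M).card :=
    Nat.le_of_mul_le_mul_right h7 (by omega)
  refine h8.trans ?_
  apply Nat.mul_le_mul_right
  calc K * (n1 * k) ^ (2 * C) * k ^ D ≤ (n1 * k) * (n1 * k) ^ (2 * C) * (n1 * k) ^ D := by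
        apply Nat.mul_le_mul
        · exact Nat.mul_le_mul_right _ (hKk.trans hkn)
        · exact Nat.pow_le_pow_left hkn D
    _ = (n1 * k) ^ (2 * C + D + 1) := by
        rw [pow_succ, pow_add]
        ring
    _ ≤ (n1 * k) ^ E := Nat.pow_le_pow_right hnk (by omega)

end Pool.Agent.Helper34_GL
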