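import Pool.Agent.Helper34_GL.Path

/-!
# The number of changes in the window, all integers

After `Pool/Agent/Helper34_GG/Pa.lean`.
-/

set_option autoImplicit false

namespace Pool.Agent.Helper34_GL

open Finset Pool.Agent.OPH

theorem near_odd (x : ℝ) (hx : 0 ≤ x) :
    |((2 * ⌊x / 2⌋₊ + 1 : ℕ) : ℝ) - x| ≤ 1 := by
  have h1 : (⌊x / 2⌋₊ : ℝ) ≤ x / 2 := Nat.floor_le (by positivity)
  have h2 : x / 2 < (⌊x / 2⌋₊ : ℝ) + 1 := Nat.lt_floor_add_one _
  push_cast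
  rw [abs_le]
  constructor <;> linarith

/-- the number of changes in the window -/
theorem pag (hG : Gr2Stmt) (hO : OrdStmt) (hbad : Pool.Agent.OPG.BadStmt) : ∃ C : ℕ, 1 ≤ C ∧
    ∀ (P M A n1 : ℕ), C ≤ M → 0 < n1 → P = 2 * (n1 * (Nat.log 2 M) ^ C) + 1 → P ^ 40 ≤ M →
    A * P ^ 10 ≤ M → M < (A + 1) * P ^ 10 → ∀ (G : Type) [CommGroup G] (f : ℕ → G), PMG f →
    f n1 ≠ 1 → A ≤ 2040 * P ^ 14 * (HG f (M + A) (M + 2 * A)).card := by
  obtain ⟨C0, hC0, hPt⟩ := ptg hG hO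
  obtain ⟨C1, hC1e⟩ : ∃ C1, C1 = C0 + 2 := ⟨_, rfl⟩
  refine ⟨C1, by omega, ?_⟩
  intro P M A n1 hCM hn1 hPe hP40 hAM hMA G _ f hf hfn
  have hn1pos : 1 ≤ n1 := hn1
  have hl1 : 1 ≤ Nat.log 2 M := Nat.log_pos (by norm_num) (by omega)
  obtain ⟨L, hL⟩ : ∃ L : ℕ, L = n1 * (Nat.log 2 M) ^ C1 := ⟨_, rfl⟩
  have hL1 : 1 ≤ L := by
    rw [hL]
    exact Nat.one_le_iff_ne_zero.mpr (by positivity)
  have hkC : (Nat.log 2 M) ^ C0 ≤ (Nat.log 2 M) ^ C1 := Nat.pow_le_pow_right hl1 (by omega)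
  have hkL : n1 * (Nat.log 2 M) ^ C0 ≤ L := by
    rw [hL]
    exact Nat.mul_le_mul_left _ hkC
  have hkLr : (n1 : ℝ) * (Nat.log 2 M : ℝ) ^ C0 ≤ L := by exact_mod_cast hkL
  have hk0r : (0 : ℝ) < (n1 : ℝ) * (Nat.log 2 M : ℝ) ^ C0 := by
    have h1 : 0 < n1 * (Nat.log 2 M) ^ C0 := by positivity
    exact_mod_cast h1
  have hn1M : n1 ≤ M := by
    have h1 : n1 ≤ P := by
      rw [hPe, ← hL]
      have : n1 ≤ L := by
        rw [hL]
        exact Nat.le_mul_of_pos_right _ (by positivity)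
      omega
    exact h1.trans ((Nat.le_self_pow (by norm_num) P).trans hP40)
  obtain ⟨J, p, q, c, hJ0, hpq0, hc0, hcs, hcb0, hcJ, hprod⟩ :=
    hPt M n1 (by omega) hn1 hn1M G f hf hfn
  have hJ : J ≤ L := by
    refine hJ0.trans (hkC.trans ?_)
    rw [hL]
    exact Nat.le_mul_of_pos_left _ hn1pos
  have hpq : ∀ i < J, 0 < p i ∧ 0 < q i ∧ p i ≤ L ∧ q i ≤ L := fun i hi =>
    ⟨(hpq0 i hi).1, (hpq0 i hi).2.1, (hpq0 i hi).2.2.1.trans hkL, (hpq0 i hi).2.2.2.trans hkL⟩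
  have hcb : ∀ i ≤ J, 1 / (L : ℝ) ≤ c i ∧ c i ≤ L := fun i hi =>
    ⟨(one_div_le_one_div_of_le hk0r hkLr).trans (hcb0 i hi).1, (hcb0 i hi).2.trans hkLr⟩
  rw [← hL] at hPe
  have hPodd : Odd P := ⟨L, by omega⟩
  have hP5 : 3 ≤ P := by omega
  have hPpos : 0 < P := by omega
  -- `A` is large
  have hA1 : P ^ 30 ≤ A := by
    have h1 : P ^ 40 < (A + 1) * P ^ 10 := lt_of_le_of_lt hP40 hMA
    have h2 : P ^ 30 * P ^ 10 = P ^ 40 := by rw [← pow_add]
    have h3 : P ^ 30 * P ^ 10 < (A + 1) * P ^ 10 := by rw [h2]; exact h1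
    have h4 := lt_of_mul_lt_mul_right h3 (Nat.zero_le _)
    omega
  have hP17 : 1440 ≤ P ^ 17 := by
    calc 1440 ≤ 3 ^ 17 := by norm_num
      _ ≤ P ^ 17 := Nat.pow_le_pow_left hP5 _
  have hA2 : 1440 * P ^ 13 ≤ A := by
    calc 1440 * P ^ 13 ≤ P ^ 17 * P ^ 13 := Nat.mul_le_mul_right _ hP17
      _ = P ^ 30 := by ring
      _ ≤ A := hA1
  have hA3 : 48 ≤ A := by
    calc 48 ≤ 3 ^ 30 := by norm_num
      _ ≤ P ^ 30 := Nat.pow_le_pow_left hP5 _
      _ ≤ A := hA1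
  have hP10 : 48 ≤ P ^ 10 := by
    calc 48 ≤ 3 ^ 10 := by norm_num
      _ ≤ P ^ 10 := Nat.pow_le_pow_left hP5 _
  -- the real numbers
  obtain ⟨H, hH⟩ : ∃ H : ℕ, H = (14 * P + 1) * P ^ 10 := ⟨_, rfl⟩
  have hHodd : Odd H := by
    rw [hH]
    exact Odd.mul ⟨7 * P, by ring⟩ hPodd.pow
  obtain ⟨Q, hQ⟩ : ∃ Q : ℝ, Q = 30 * (P : ℝ) ^ 13 := ⟨_, rfl⟩
  have hPr : (3 : ℝ) ≤ P := by exact_mod_cast hP5
  have hP0 : (0 : ℝ) < P := by linarith
  have hLr1 : (1 : ℝ) ≤ L := by exact_mod_cast hL1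
  have hLP : 2 * (L : ℝ) + 1 = P := by rw [hPe]; push_cast; ring
  have hHr : (H : ℝ) = (14 * P + 1) * (P : ℝ) ^ 10 := by rw [hH]; push_cast; ring
  have hP10r : (48 : ℝ) ≤ (P : ℝ) ^ 10 := by exact_mod_cast hP10
  have hAr : (48 : ℝ) ≤ A := by exact_mod_cast hA3
  have hAMr : (A : ℝ) * (P : ℝ) ^ 10 ≤ M := by exact_mod_cast hAM
  have hMAr : (M : ℝ) < (A + 1) * (P : ℝ) ^ 10 := by exact_mod_cast hMA
  have hA2r : 1440 * (P : ℝ) ^ 13 ≤ A := by exact_mod_cast hA2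
  have hM0r : (0 : ℝ) < M := by
    have : (0 : ℝ) < (A : ℝ) * (P : ℝ) ^ 10 := by positivity
    linarith
  have hH0 : (0 : ℝ) < H := by rw [hHr]; positivity
  have hHB : 14 * (P : ℝ) ^ 10 ≤ H / L := by
    rw [le_div_iff₀ (by linarith), hHr]
    have : (0 : ℝ) ≤ (P : ℝ) ^ 10 := by positivity
    nlinarith
  have hQ1 : (1 : ℝ) ≤ Q := by
    rw [hQ]
    have h2 : (1 : ℝ) ≤ (P : ℝ) ^ 13 := one_le_pow₀ (by linarith)
    nlinarith
  have hQA : 4 * Q ≤ A / 12 := by rw [hQ]; linarith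
  have hHM : (H : ℝ) ≤ M := by
    have h1 : H ≤ M := by
      rw [hH]
      calc (14 * P + 1) * P ^ 10 ≤ P ^ 17 * P * P ^ 10 := by
            apply Nat.mul_le_mul_right
            nlinarith
        _ = P ^ 28 := by ring
        _ ≤ P ^ 40 := Nat.pow_le_pow_right hPpos (by norm_num)
        _ ≤ M := hP40
    exact_mod_cast h1
  have hcJH : |c J - 1| * H ≤ 1 := by
    have h1 : |c J - 1| * H ≤ 1 / (M : ℝ) * M :=
      mul_le_mul hcJ hHM hH0.le (by positivity)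
    have h2 : 1 / (M : ℝ) * M = 1 := by field_simp
    linarith
  -- the numbers `g i`
  obtain ⟨g, hg⟩ : ∃ g : ℕ → ℕ, ∀ i, g i = if i = 0 ∨ i = J then H else
    2 * ⌊(c i * H) / 2⌋₊ + 1 := ⟨fun i => if i = 0 ∨ i = J then H else
    2 * ⌊(c i * H) / 2⌋₊ + 1, fun i => rfl⟩
  have hg0 : g 0 = H := by rw [hg]; simp
  have hgJ : g J = H := by rw [hg]; simp
  have hgodd : ∀ i ≤ J, Odd (g i) := by
    intro i _
    rw [hg]
    split_ifs
    · exact hHodd
    · exact ⟨_, rfl⟩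
  have hcpos : ∀ i ≤ J, 0 < c i := by
    intro i hi
    have h1 := (hcb i hi).1
    have h2 : (0 : ℝ) < 1 / L := by positivity
    linarith
  have hgc : ∀ i ≤ J, |(g i : ℝ) - c i * H| ≤ 1 := by
    intro i hi
    by_cases h : i = 0 ∨ i = J
    · have hgi : g i = H := by rw [hg, if_pos h]
      rw [hgi]
      rcases h with h | h
      · rw [h, hc0]; simp
      · rw [h]
        have h1 : (H : ℝ) - c J * H = -((c J - 1) * H) := by ring
        rw [h1, abs_neg, abs_mul, abs_of_pos hH0]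
        exact hcJH
    · have hgi : g i = 2 * ⌊(c i * H) / 2⌋₊ + 1 := by rw [hg, if_neg h]
      rw [hgi]
      exact near_odd _ (mul_nonneg (hcpos i hi).le hH0.le)
  have hcH : ∀ i ≤ J, 14 * (P : ℝ) ^ 10 ≤ c i * H := by
    intro i hi
    have h1 := (hcb i hi).1
    calc 14 * (P : ℝ) ^ 10 ≤ H / L := hHB
      _ = 1 / L * H := by ring
      _ ≤ c i * H := mul_le_mul_of_nonneg_right h1 hH0.le
  have hgl : ∀ i ≤ J, 13 * (P : ℝ) ^ 10 ≤ g i := by
    intro i hi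
    have h1 := abs_le.1 (hgc i hi)
    have h2 := hcH i hi
    linarith [h1.1]
  have hgu : ∀ i ≤ J, (g i : ℝ) ≤ L * H + 1 := by
    intro i hi
    have h1 := abs_le.1 (hgc i hi)
    have h2 : c i * H ≤ L * H := mul_le_mul_of_nonneg_right (hcb i hi).2 hH0.le
    linarith [h1.2]
  have h13 : (0 : ℝ) < 13 * (P : ℝ) ^ 10 := by positivity
  have hgpos : ∀ i ≤ J, (0 : ℝ) < g i := fun i hi => lt_of_lt_of_le h13 (hgl i hi)
  have hCi : ∀ i ≤ J, |c i * H / g i - 1| ≤ 1 / (13 * (P : ℝ) ^ 10) := by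
    intro i hi
    have h1 := hgpos i hi
    have h2 : c i * H / g i - 1 = -((g i : ℝ) - c i * H) / g i := by
      field_simp
      ring
    rw [h2, abs_div, abs_neg, abs_of_pos h1]
    exact div_le_div₀ (by norm_num) (hgc i hi) h13 (hgl i hi)
  have hCi2 : ∀ i ≤ J, 1 / 2 ≤ c i * H / g i := by
    intro i hi
    have h1 := abs_le.1 (hCi i hi)
    have h2 : 1 / (13 * (P : ℝ) ^ 10) ≤ 1 / 2 := by
      apply one_div_le_one_div_of_le (by norm_num)
      linarith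
    linarith [h1.1]
  have hstep : ∀ i < J, (p i : ℝ) * g i ≤ Q ∧ (q i : ℝ) * g (i + 1) ≤ Q := by
    intro i hi
    obtain ⟨_, _, hp2, hq2⟩ := hpq i hi
    have hp2r : (p i : ℝ) ≤ P := by
      have h1 : (p i : ℝ) ≤ L := by exact_mod_cast hp2
      linarith
    have hq2r : (q i : ℝ) ≤ P := by
      have h1 : (q i : ℝ) ≤ L := by exact_mod_cast hq2
      linarith
    have hb : P * (L * H + 1) ≤ Q := by
      have hH1 : (1 : ℝ) ≤ H := by rw [hHr]; nlinarith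
      have e1 : P * (L * H + 1) ≤ P * (P * (H : ℝ)) := by
        apply mul_le_mul_of_nonneg_left _ hP0.le
        nlinarith
      refine e1.trans ?_
      rw [hQ, hHr]
      have e2 : (P : ℝ) * (P * ((14 * P + 1) * (P : ℝ) ^ 10)) =
        14 * (P : ℝ) ^ 13 + (P : ℝ) ^ 12 := by ring
      rw [e2]
      have e3 : (P : ℝ) ^ 12 ≤ (P : ℝ) ^ 13 := pow_le_pow_right₀ (by linarith) (by norm_num)
      have e4 : (0 : ℝ) ≤ (P : ℝ) ^ 13 := by positivity
      linarith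
    constructor
    · calc (p i : ℝ) * g i ≤ P * (L * H + 1) := by
            apply mul_le_mul hp2r (hgu i hi.le) (Nat.cast_nonneg _) (by positivity)
        _ ≤ Q := hb
    · calc (q i : ℝ) * g (i + 1) ≤ P * (L * H + 1) := by
            apply mul_le_mul hq2r (hgu (i + 1) hi) (Nat.cast_nonneg _) (by positivity)
        _ ≤ Q := hb
  -- union bound
  obtain ⟨A4, hA4⟩ : ∃ A4 : ℕ, A4 = A / 4 := ⟨_, rfl⟩
  have hA4l : (A : ℝ) / 6 ≤ A4 := by
    have h1 : A < 4 * A4 + 4 := by omega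
    have h2 : (A : ℝ) < 4 * A4 + 4 := by exact_mod_cast h1
    linarith
  have hA4u : 4 * (A4 : ℝ) ≤ A := by
    have h1 : 4 * A4 ≤ A := by omega
    exact_mod_cast h1
  have hba : ((M + 2 * A - A4 : ℕ) : ℝ) = M + 2 * A - A4 := by
    rw [Nat.cast_sub (by omega)]
    push_cast
    ring
  have hmain := hbad J (M + A + A4) (M + 2 * A - A4) (fun i => c i * H / g i)
    (HG f (M + A) (M + 2 * A)) Q hQ1 hCi2 (by
      intro Y hY
      rw [Finset.mem_Icc] at hY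
      by_contra hcon
      push Not at hcon
      have hY1 : (M : ℝ) + A + A4 ≤ Y := by exact_mod_cast hY.1
      have hY2 : (Y : ℝ) ≤ M + 2 * A - A4 := by
        rw [← hba]; exact_mod_cast hY.2
      have hM0 : (0 : ℝ) ≤ M := Nat.cast_nonneg _
      have hYpos : (0 : ℝ) < Y := by linarith
      have hdev : ∀ i ≤ J, |c i * H / g i * Y - Y| ≤ A / 12 := by
        intro i hi
        have e1 : c i * H / g i * Y - Y = (c i * H / g i - 1) * Y := by ring
        rw [e1, abs_mul, abs_of_pos hYpos]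
        calc |c i * H / g i - 1| * Y ≤ 1 / (13 * (P : ℝ) ^ 10) * (M + 2 * A) := by
              apply mul_le_mul (hCi i hi) (by linarith) hYpos.le (by positivity)
          _ ≤ A / 12 := by
              rw [one_div_mul_eq_div, div_le_iff₀ h13]
              have hx : (48 : ℝ) * 48 ≤ (A : ℝ) * (P : ℝ) ^ 10 :=
                mul_le_mul hAr hP10r (by norm_num) (by linarith)
              have hx2 : 48 * (P : ℝ) ^ 10 ≤ (A : ℝ) * (P : ℝ) ^ 10 :=
                mul_le_mul_of_nonneg_right hAr (by positivity)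
              have hx3 : (A : ℝ) * 48 ≤ (A : ℝ) * (P : ℝ) ^ 10 :=
                mul_le_mul_of_nonneg_left hP10r (by linarith)
              nlinarith
      have hσ : ∀ i : ℕ, ∃ σ : G, i ≤ J → ∀ n : ℕ, 0 < n →
          |(n : ℝ) - c i * H / g i * Y| ≤ 4 * Q → f n = σ := by
        intro i
        by_cases hi : i ≤ J
        · have hd := abs_le.1 (hdev i hi)
          obtain ⟨σ, hσ⟩ := gdb f (M + A) (M + 2 * A) Q (c i * H / g i * Y)
            (by push_cast; linarith [hd.1]) (by push_cast; linarith [hd.2])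
            (fun u hu => hcon i hi u hu)
          exact ⟨σ, fun _ n _ => hσ n⟩
        · exact ⟨1, fun h => absurd h hi⟩
      choose σ hσ using hσ
      have h1 := tel f J H p q g c Q Y σ hf hQ1 hYpos (fun i hi => ⟨(hpq i hi).1, (hpq i hi).2.1⟩)
        (fun i hi => (hgodd i hi).pos) hg0 hgJ hc0 hcpos hcs hstep (by
          rw [hgJ, mul_div_assoc, div_self hH0.ne', mul_one]
          have e1 : c J * Y - Y = (c J - 1) * Y := by ring
          rw [e1, abs_mul, abs_of_pos hYpos]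
          have hAM2 : (A : ℝ) ≤ M := by nlinarith
          calc |c J - 1| * Y ≤ 1 / (M : ℝ) * (3 * M) := by
                apply mul_le_mul hcJ (by linarith) hYpos.le (by positivity)
            _ = 3 := by field_simp
            _ ≤ Q := by
                rw [hQ]
                have h2 : (1 : ℝ) ≤ (P : ℝ) ^ 13 := one_le_pow₀ (by linarith)
                linarith) (fun i hi => hσ i hi)
      exact hprod h1)
  -- conclusion
  rw [hba] at hmain
  push_cast at hmain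
  have hJr : (J : ℝ) ≤ L := by exact_mod_cast hJ
  have hJ1 : (J : ℝ) + 1 ≤ P := by linarith
  obtain ⟨N, hN⟩ : ∃ N : ℕ, N = (HG f (M + A) (M + 2 * A)).card := ⟨_, rfl⟩
  rw [← hN] at hmain ⊢
  have hfin : (A : ℝ) ≤ 2040 * (P : ℝ) ^ 14 * N := by
    have h1 : (A : ℝ) / 2 ≤ (J + 1) * N * (17 * Q) := by linarith
    have h2 : (J + 1) * (N : ℝ) * (17 * Q) ≤ P * N * (17 * Q) := by
      apply mul_le_mul_of_nonneg_right _ (by linarith)
      apply mul_le_mul_of_nonneg_right hJ1 (Nat.cast_nonneg _)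
    have h3 : P * N * (17 * Q) = 510 * (P : ℝ) ^ 14 * N := by
      rw [hQ]; ring
    have h5 : (0 : ℝ) ≤ (P : ℝ) ^ 14 * N := by positivity
    nlinarith
  exact_mod_cast hfin

end Pool.Agent.Helper34_GL
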